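import Pool.Agent.Y48.DR.TFBV
import Pool.Agent.Y280.CG.Faz

/-!
# DR-FAZV: bounds of the traces (far part), with the functions of the children

`t_FAZV : Pool.Agent.Y481.DR.S_FAZV`.
-/

set_option autoImplicit false

namespace Pool.Agent.Y48.DR

open Finset Filter Topology Metric MeasureTheory
open Pool.Agent.W711.HT hiding XX
open Pool.Agent.Y472 Pool.Agent.Y481.DR
open Pool.Agent.Y833.CB (trace_diff wE_diff cauchy wE_bd)
open Pool.Agent.Y280.CG
open scoped Real

lemma MBV_diff (N : ℕ) (V : Vx) (i j : Fin N) : Differentiable ℂ fun χ => MBV N χ V i j := by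
  unfold MBV
  split_ifs
  · refine Differentiable.mul ?_ (differentiable_const _)
    refine Differentiable.fun_finsetProd fun t _ => ?_
    unfold Ph
    exact (differentiable_const _).mul
      (((differentiable_const _).mul Complex.differentiable_cos).sub (differentiable_const _))
  · exact differentiable_const _

lemma mul_MBV_diff (N : ℕ) (M : Matrix (Fin N) (Fin N) ℂ) (V : Vx) (i j : Fin N) :
    Differentiable ℂ fun χ => (M * MBV N χ V) i j := by
  have : (fun χ => (M * MBV N χ V) i j) = fun χ => ∑ k, M i k * MBV N χ V k j := by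
    funext χ
    rw [Matrix.mul_apply]
  rw [this]
  exact Differentiable.fun_sum fun k _ => (differentiable_const _).mul (MBV_diff N V k j)

lemma TV_diff (N : ℕ) (ls : List (Vx × Vx)) : Differentiable ℂ (TV N ls) :=
  trace_diff ls (fun q χ => MAV N q.1 * MBV N χ q.2) fun q i j => mul_MBV_diff N _ _ i j

lemma MBV_congr (N : ℕ) {χ χ' : ℂ} (h : Complex.cos χ = Complex.cos χ') (V : Vx) :
    MBV N χ V = MBV N χ' V := by
  unfold MBV Ph
  rw [h]

lemma TV_congr (N : ℕ) (ls : List (Vx × Vx)) {χ χ' : ℂ} (h : Complex.cos χ = Complex.cos χ') :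
    TV N ls χ = TV N ls χ' := by
  unfold TV
  simp only [MBV_congr N h]

theorem anL_of_subL {ls : List (Vx × Vx)} (h : SubL ls) : AnL ls :=
  fun p hp => ⟨(h p hp).1.an, (h p hp).2.an, (h p hp).1.ev, (h p hp).2.ev⟩

/-- growth of the functions of the children -/
theorem vy_gr {ls : List (Vx × Vx)} (h : SubL ls) (j : ℕ) {ε : ℝ} (hε : 0 < ε) :
    ∀ᶠ N : ℕ in atTop, ∀ ψ : ℂ, |ψ.re| ≤ π → |ψ.im| ≤ 1 / N →
      ‖vy ls j N ψ‖ ≤ Real.exp (N * ε) := by
  rcases vy_cases ls j with ⟨p, hp, h1 | h1⟩ | h1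
  · rw [h1]
    exact (h p hp).1.gr ε hε
  · rw [h1]
    exact (h p hp).2.gr ε hε
  · rw [h1]
    refine Filter.Eventually.of_forall fun N ψ _ _ => ?_
    rw [norm_one]
    exact Real.one_le_exp (by positivity)

theorem t_FAZV : S_FAZV := by
  intro hKB hKR hKA hTFB hKFF hKF hS0 ls m hls hSub ε hε
  have hπ := Real.pi_pos
  have hπ1 := Real.pi_gt_d2
  have hπ2 := Real.pi_lt_d2
  have hAn := anL_of_subL hSub
  have hws : wl ls ≠ [] := by
    unfold wl
    rwa [Ne, List.map_eq_nil_iff]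
  obtain ⟨C, hC, HT'⟩ := hTFB hKFF hKF (wl ls) hws
  have HT := HT' ls rfl hAn
  set k := ls.length with hk
  have hk1 : 1 ≤ k := by
    rw [hk]
    exact List.length_pos_iff.2 hls
  have hkR : (1 : ℝ) ≤ k := by exact_mod_cast hk1
  set e : ℝ := ε / (8 * k) with he
  have he0 : 0 < e := by positivity
  have he1 : 2 * k * (2 * e) = ε / 2 := by
    rw [he]
    field_simp
    norm_num
  obtain ⟨τ1, hτ1, HA⟩ := hKA e he0
  obtain ⟨τ2, hτ2, HR⟩ := hKR e he0
  obtain ⟨ρs, c₂, hρ0, hρ1, hc₂, HB⟩ := hKB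
  obtain ⟨τ3, hτ3, HB⟩ := HB e he0
  have hτ : ∀ {τ : ℝ}, 0 < τ → ∀ᶠ N : ℕ in atTop, 1 / (N : ℝ) ≤ τ := fun h => by
    have := tendsto_one_div_atTop_nhds_zero_nat (𝕜 := ℝ)
    exact this.eventually (eventually_le_nhds h)
  have HQ : ∀ᶠ N : ℕ in atTop, ∀ j ∈ range (2 * k), ∀ ψ : ℂ, |ψ.re| ≤ π → |ψ.im| ≤ 1 / N →
      ‖vy ls j N ψ‖ ≤ Real.exp (N * e) :=
    (Filter.eventually_all_finset _).2 fun j _ => vy_gr hSub j he0
  have hBQ : ∀ (N : ℕ) (A : ℝ), Real.exp (N * (A + e)) * Real.exp (N * e) =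
      Real.exp (N * (A + 2 * e)) := by
    intro N A
    rw [← Real.exp_add]
    congr 1
    ring
  filter_upwards [HA, HR, HB, hτ hτ1, hτ hτ2, hτ hτ3, eventually_ge_atTop 600,
    ev_pow (Real.exp (1 + 2 * |(m : ℝ)|) * C) (4 * k + 1) (half_pos hε),
    ev_pow C (4 * k) (half_pos hε), HQ] with N HA HR HB hN1 hN2 hN3 hN4 hP1 hP2 HQ
  have HQ' : ∀ j < 2 * k, ∀ ψ : ℂ, |ψ.re| ≤ π → |ψ.im| ≤ 1 / N →
      ‖vy ls j N ψ‖ ≤ Real.exp (N * e) := fun j hj => HQ j (Finset.mem_range.2 hj)
  have hN0 : 0 < N := by omega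
  have hNR : (0 : ℝ) < N := by exact_mod_cast hN0
  have hNR6 : (600 : ℝ) ≤ N := by exact_mod_cast hN4
  have hN1R : 1 / (N : ℝ) ≤ 1 / 600 := one_div_le_one_div_of_le (by norm_num) hNR6
  have hinv : 0 < 1 / (N : ℝ) := by positivity
  constructor
  · -- (1)
    intro p hp1 hp2
    -- bound of `TV`
    have T0 : ∀ w : ℂ, 2 * π / 3 - 1 / 100 ≤ |w.re| → |w.re| ≤ π → |w.im| ≤ 1 / N → Gap N w →
        ‖TV N ls w‖ ≤ C * (N : ℝ) ^ (4 * k) * Real.exp (N * (157 / 200 + 2 * e)) ^ (2 * k) := by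
      intro w h1 h2 h3 h4
      rw [← hBQ]
      refine (HT N w (Real.exp (N * (157 / 200 + e))) (Real.exp (N * (bet + e)))
        (Real.exp (N * e)) (by omega)
        (fun t ht1 ht2 => ph_ne (by omega) h4 ht1 ht2) (Real.exp_pos _).le
        (Real.exp_le_exp.2 (mul_le_mul_of_nonneg_left (by linarith [bet_le]) hNR.le))
        (Real.exp_pos _).le ?_ HQ').1
      intro ψ ψ' a1 a2 a3 a4
      exact ⟨HA ψ ψ' w a1 (a2.trans hN1) a3 (a4.trans hN1) h1 h2 (h3.trans hN1),
        HR ψ ψ' w a1 (a2.trans hN2) a3 (a4.trans hN2) h2 (by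
          refine h3.trans (hN1R.trans (by norm_num))) h4⟩
    have T1 : ∀ w : ℂ, 2 * π / 3 - 1 / 100 ≤ w.re → w.re ≤ π + 1 / N → |w.im| ≤ 1 / N → Gap N w →
        ‖TV N ls w‖ ≤ C * (N : ℝ) ^ (4 * k) * Real.exp (N * (157 / 200 + 2 * e)) ^ (2 * k) := by
      intro w h1 h2 h3 h4
      by_cases hw : w.re ≤ π
      · exact T0 w (by rwa [abs_of_nonneg (by linarith)]) (by rwa [abs_of_nonneg (by linarith)]) h3 h4
      · have hcos : Complex.cos w = Complex.cos (2 * π - w) := by
          rw [Complex.cos_two_pi_sub]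
        have hre : (2 * π - w : ℂ).re = 2 * π - w.re := by simp
        have him : (2 * π - w : ℂ).im = -w.im := by simp
        rw [not_le] at hw
        rw [TV_congr N ls hcos]
        refine T0 _ ?_ ?_ ?_ (gap_refl hN0 h4)
        · rw [hre, abs_of_nonneg (by linarith)]
          linarith
        · rw [hre, abs_of_nonneg (by linarith)]
          linarith
        · rw [him, abs_neg]
          exact h3
    -- the circle
    have hc : (2 * π * p / N : ℂ) = ((2 * π * p / N : ℝ) : ℂ) := by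
      push_cast
      rfl
    have hp3 : (N : ℝ) - 2 ≤ 3 * p := by
      have : N ≤ 3 * p + 2 := by omega
      have : (N : ℝ) ≤ 3 * p + 2 := by exact_mod_cast this
      linarith
    have hp4 : (2 : ℝ) * p ≤ N := by exact_mod_cast hp2
    have hc1 : 2 * π / 3 - 4 * π / 3 * (1 / N) ≤ 2 * π * p / N := by
      rw [le_div_iff₀ hNR]
      have : (2 * π / 3 - 4 * π / 3 * (1 / N)) * N = 2 * π / 3 * (N - 2) := by
        field_simp
        ring
      rw [this]
      have := mul_le_mul_of_nonneg_left hp3 (by positivity : (0 : ℝ) ≤ 2 * π / 3)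
      linarith
    have hc2 : 2 * π * p / N ≤ π := by
      rw [div_le_iff₀ hNR]
      have := mul_le_mul_of_nonneg_left hp4 hπ.le
      linarith
    have key : ∀ w : ℂ, ‖w - 2 * π * p / N‖ = 1 / (N : ℝ) →
        ‖wE N m w * TV N ls w‖ ≤ Real.exp (1 + 2 * |(m : ℝ)|) *
          (C * (N : ℝ) ^ (4 * k) * Real.exp (N * (157 / 200 + 2 * e)) ^ (2 * k)) := by
      intro w hw
      have hg := gap_sphere hN0 hw
      have hre : |w.re - 2 * π * p / N| ≤ 1 / N := by
        have := Complex.abs_re_le_norm (w - 2 * π * p / N)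
        rw [hw, hc, Complex.sub_re, Complex.ofReal_re] at this
        exact this
      have him : |w.im| ≤ 1 / N := by
        have := Complex.abs_im_le_norm (w - 2 * π * p / N)
        rw [hw, hc, Complex.sub_im, Complex.ofReal_im, sub_zero] at this
        exact this
      rw [abs_le] at hre
      have hlo : 2 * π / 3 - 1 / 100 ≤ w.re := by
        have : 4 * π / 3 * (1 / N) ≤ 4 * π / 3 * (1 / 600) :=
          mul_le_mul_of_nonneg_left hN1R (by positivity)
        linarith [hre.1]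
      have hhi : w.re ≤ π + 1 / N := by linarith [hre.2]
      rw [norm_mul]
      refine mul_le_mul (wE_bd N hN0 m w ?_ him) (T1 w hlo hhi him hg) (norm_nonneg _)
        (Real.exp_pos _).le
      rw [abs_of_nonneg (by linarith)]
      linarith
    have h1 := cauchy ((wE_diff N m).mul (TV_diff N ls)) (2 * π * p / N) hinv key
    have h2 : (fun χ => wE N m χ * TV N ls χ) = (wE N m * TV N ls) := rfl
    rw [h2]
    refine h1.trans ?_
    have h3 : Real.exp (1 + 2 * |(m : ℝ)|) *
          (C * (N : ℝ) ^ (4 * k) * Real.exp (N * (157 / 200 + 2 * e)) ^ (2 * k)) / (1 / N) =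
        Real.exp (1 + 2 * |(m : ℝ)|) * C * (N : ℝ) ^ (4 * k + 1) *
          Real.exp (N * (157 / 200 + 2 * e)) ^ (2 * k) := by
      rw [div_div_eq_mul_div, div_one, pow_succ]
      ring
    rw [h3]
    refine (exp_bd hP1 he1).trans (le_of_eq ?_)
    congr 1
    ring
  · -- (2)
    intro χ h1 h2 h4
    set B0 : ℝ := max (s0 χ).re bet with hB0
    have hχπ : |χ.re| ≤ π := by linarith
    have HH := HT N χ (Real.exp (N * (B0 + e))) (Real.exp (N * (bet + e)))
        (Real.exp (N * e)) (by omega)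
        (fun t ht1 ht2 => ph_ne (by omega) h4 ht1 ht2) (Real.exp_pos _).le
        (Real.exp_le_exp.2 (mul_le_mul_of_nonneg_left (by linarith [le_max_right (s0 χ).re bet])
          hNR.le)) (Real.exp_pos _).le (by
      intro ψ ψ' a1 a2 a3 a4
      refine ⟨(HB ψ ψ' χ a1 (a2.trans hN3) a3 (a4.trans hN3) h1 h2).trans (Real.exp_le_exp.2
        (mul_le_mul_of_nonneg_left ?_ hNR.le)), HR ψ ψ' χ a1 (a2.trans hN2) a3 (a4.trans hN2) hχπ
          h2 h4⟩
      have b1 : 0 ≤ c₂ * min |ψ.re| ρs ^ 2 := by positivity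
      have b2 : 0 ≤ c₂ * min |ψ'.re| ρs ^ 2 := by positivity
      linarith [le_max_left (s0 χ).re bet]) HQ'
    rw [hBQ] at HH
    refine ⟨HH.1.trans (exp_bd hP2 he1), HH.2.trans ?_⟩
    calc C * (N : ℝ) ^ (4 * k) * (Real.exp (N * (B0 + e)) ^ (2 * k - 1) *
            Real.exp (N * (bet + e)) * Real.exp (N * e) ^ (2 * k)) ≤
          Real.exp (N * (ε / 2)) * (Real.exp (N * (B0 + e)) ^ (2 * k - 1) *
            Real.exp (N * (bet + e)) * Real.exp (N * e) ^ (2 * k)) := by gcongr
      _ = Real.exp (N * ((2 * k - 1) * B0 + bet + ε)) := by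
          rw [← Real.exp_nat_mul, ← Real.exp_nat_mul, ← Real.exp_add, ← Real.exp_add,
            ← Real.exp_add]
          congr 1
          have : ((2 * k - 1 : ℕ) : ℝ) = 2 * k - 1 := by
            rw [Nat.cast_sub (by omega)]
            push_cast
            ring
          rw [this]
          push_cast
          linear_combination (N : ℝ) * he1

end Pool.Agent.Y48.DR
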