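import Pool.Agent.Y481.DR.Defs
import Pool.Agent.Y691.CG.TFB

/-!
# DR-TFBV: bounds of the traces by bounds of the kernels, with the functions of the children

`t_TFBV : Pool.Agent.Y481.DR.S_TFBV`.
-/

set_option autoImplicit false
set_option maxHeartbeats 400000

namespace Pool.Agent.Y48.DR

open Finset MeasureTheory
open Pool.Agent.W711.HT hiding XX
open Pool.Agent.Y472 Pool.Agent.Y691.CG Pool.Agent.Y481.DR
open Pool.Agent.Y481 (itI wts cw Sep LI itG itG_sep LI_lin itI_eq)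
open scoped Real

theorem vy_cases (ls : List (Vx × Vx)) (j : ℕ) :
    (∃ p ∈ ls, vy ls j = p.1.2 ∨ vy ls j = p.2.2) ∨ vy ls j = fun _ _ => 1 := by
  unfold vy
  set L := (ls.map fun p => [p.1.2, p.2.2]).flatten with hL
  by_cases hj : j < L.length
  · left
    rw [List.getD_eq_getElem _ _ hj]
    have h1 : L[j] ∈ L := List.getElem_mem hj
    generalize L[j] = z at h1 ⊢
    rw [hL, List.mem_flatten] at h1
    obtain ⟨l, hl, h2⟩ := h1
    rw [List.mem_map] at hl
    obtain ⟨p, hp, rfl⟩ := hl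
    refine ⟨p, hp, ?_⟩
    simpa using h2
  · right
    rw [List.getD_eq_default _ _ (not_lt.1 hj)]

theorem vy_diff {ls : List (Vx × Vx)} (h : AnL ls) (j N : ℕ) : Differentiable ℂ (vy ls j N) := by
  rcases vy_cases ls j with ⟨p, hp, h1 | h1⟩ | h1
  · rw [h1]
    exact (h p hp).1 N
  · rw [h1]
    exact (h p hp).2.1 N
  · rw [h1]
    exact differentiable_const _

theorem sep_YP {ls : List (Vx × Vx)} (h : AnL ls) (N : ℕ) : Sep (2 * ls.length) (YP ls N) := by
  have e : YP ls N = fun ψ => ∏ j ∈ range (2 * ls.length), vy ls j N (ψ j) := rfl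
  rw [e]
  refine Sep.prod _ fun j hj => ?_
  rw [Finset.mem_range] at hj
  exact Sep.var hj (vy_diff h j N)

theorem t_TFBV : S_TFBV := by
  intro hKFF hKF ws hws
  have hk : 0 < ws.length := List.length_pos_iff.2 hws
  obtain ⟨m, hm⟩ : ∃ m, 2 * ws.length = m + 1 := ⟨2 * ws.length - 1, by omega⟩
  obtain ⟨C, hC, hI⟩ := itI_bd (cw ws) (2 * ws.length) (2 * ws.length) le_rfl
  refine ⟨C * (m + 1) * 2 ^ (2 * ws.length), by positivity, ?_⟩
  intro ls hls hAn N χ B B' Q hN hne hB' hBB hQ hker hvy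
  have hlen : ls.length = ws.length := by
    rw [← hls]
    unfold wl
    rw [List.length_map]
  have hl : ls ≠ [] := by
    rintro rfl
    rw [List.length_nil] at hlen
    omega
  have hKFF' := hKFF N ls χ hN hl hAn hne
  have hKF' := hKF N ls χ hN hl hAn
  rw [XV] at hKF'
  rw [hls, hlen] at hKFF' hKF'
  rw [hlen] at hvy
  have hsY : Sep (2 * ws.length) (YP ls N) := by
    rw [← hlen]
    exact sep_YP hAn N
  rw [hlen]
  have hN1 : (1 : ℝ) ≤ N := by exact_mod_cast (show 1 ≤ N by omega)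
  have hB : 0 ≤ B := hB'.trans hBB
  have hn0 : 0 < 2 * ws.length := by omega
  have hpi := Real.pi_gt_three
  -- the factor
  have hfac : ‖((N : ℂ) / (2 * π)) ^ (2 * ws.length)‖ ≤ (N : ℝ) ^ (4 * ws.length) := by
    rw [norm_pow, norm_div, Complex.norm_natCast, Pool.Agent.W346.HT.norm_two_pi]
    have h1 : (N : ℝ) / (2 * π) ≤ N := by
      rw [div_le_iff₀ (by linarith)]
      nlinarith
    calc ((N : ℝ) / (2 * π)) ^ (2 * ws.length) ≤ (N : ℝ) ^ (2 * ws.length) := by gcongr
      _ ≤ (N : ℝ) ^ (4 * ws.length) := pow_le_pow_right₀ hN1 (by omega)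
  have h0 : ∀ j < 2 * ws.length, |((0 : ℕ → ℂ) j).re| ≤ π ∧ |((0 : ℕ → ℂ) j).im| ≤ 1 / (N : ℝ) := by
    intro j _
    simp only [Pi.zero_apply, Complex.zero_re, abs_zero, Complex.zero_im]
    exact ⟨by linarith, by positivity⟩
  -- bound of the functions of the children
  have hY : ∀ ψ : ℕ → ℂ, (∀ j < 2 * ws.length, |(ψ j).re| ≤ π ∧ |(ψ j).im| ≤ 1 / (N : ℝ)) →
      ‖YP ls N ψ‖ ≤ Q ^ (2 * ws.length) := by
    intro ψ hψ
    rw [YP, norm_prod, hlen]
    calc ∏ j ∈ range (2 * ws.length), ‖vy ls j N (ψ j)‖ ≤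
          ∏ _j ∈ range (2 * ws.length), Q :=
          Finset.prod_le_prod (fun _ _ => norm_nonneg _) fun j hj => by
            rw [Finset.mem_range] at hj
            exact hvy j hj (ψ j) (hψ j hj).1 (hψ j hj).2
      _ = Q ^ (2 * ws.length) := by rw [Finset.prod_const, Finset.card_range]
  -- bounds of the kernels
  have kh_bd : ∀ ψ : ℕ → ℂ, (∀ j < 2 * ws.length, |(ψ j).re| ≤ π ∧ |(ψ j).im| ≤ 1 / (N : ℝ)) →
      ∀ j < 2 * ws.length, ‖kF N (ψ j) (ψ ((j + 1) % (2 * ws.length))) χ‖ ≤ 2 * B ∧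
        ‖kh N (ψ j) (ψ ((j + 1) % (2 * ws.length))) χ‖ ≤ 2 * B ∧
        ‖kF N (ψ j) (ψ ((j + 1) % (2 * ws.length))) χ -
          kh N (ψ j) (ψ ((j + 1) % (2 * ws.length))) χ‖ ≤ B' := by
    intro ψ hψ j hj
    have a1 := hψ j hj
    have a2 := hψ _ (Nat.mod_lt (j + 1) hn0)
    obtain ⟨b1, b2⟩ := hker (ψ j) (ψ ((j + 1) % (2 * ws.length))) a1.1 a1.2 a2.1 a2.2
    refine ⟨?_, by linarith, b2⟩
    have b3 := norm_add_le (kF N (ψ j) (ψ ((j + 1) % (2 * ws.length))) χ -
      kh N (ψ j) (ψ ((j + 1) % (2 * ws.length))) χ) (kh N (ψ j) (ψ ((j + 1) % (2 * ws.length))) χ)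
    rw [sub_add_cancel] at b3
    linarith
  have hs1 : Sep (2 * ws.length) (fun ψ => WkF (2 * ws.length) N χ ψ * YP ls N ψ) :=
    (sep_WkF N χ hn0).mul hsY
  have hs2 : Sep (2 * ws.length) (fun ψ => Wk (2 * ws.length) N χ ψ * YP ls N ψ) :=
    (sep_Wk N χ hn0).mul hsY
  constructor
  · rw [hKFF', norm_mul]
    have h1 : ‖itI (cw ws) N (2 * ws.length)
        (fun ψ => WkF (2 * ws.length) N χ ψ * YP ls N ψ) 0‖ ≤
        C * ((2 * B) ^ (2 * ws.length) * Q ^ (2 * ws.length)) := by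
      refine hI N (by omega) _ _ hs1 (fun ψ hψ => ?_) 0 h0
      rw [norm_mul]
      refine mul_le_mul ?_ (hY ψ hψ) (norm_nonneg _) (by positivity)
      rw [WkF, norm_prod]
      calc ∏ j ∈ range (2 * ws.length), ‖kF N (ψ j) (ψ ((j + 1) % (2 * ws.length))) χ‖ ≤
            ∏ _j ∈ range (2 * ws.length), (2 * B) :=
            Finset.prod_le_prod (fun _ _ => norm_nonneg _) fun j hj => by
              rw [Finset.mem_range] at hj
              exact (kh_bd ψ hψ j hj).1
        _ = (2 * B) ^ (2 * ws.length) := by rw [Finset.prod_const, Finset.card_range]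
    calc ‖((N : ℂ) / (2 * π)) ^ (2 * ws.length)‖ *
          ‖itI (cw ws) N (2 * ws.length)
            (fun ψ => WkF (2 * ws.length) N χ ψ * YP ls N ψ) 0‖ ≤
          (N : ℝ) ^ (4 * ws.length) * (C * ((2 * B) ^ (2 * ws.length) * Q ^ (2 * ws.length))) := by
          gcongr
      _ = C * 1 * 2 ^ (2 * ws.length) * (N : ℝ) ^ (4 * ws.length) * (B * Q) ^ (2 * ws.length) := by
          rw [mul_pow, mul_pow]
          ring
      _ ≤ C * (m + 1) * 2 ^ (2 * ws.length) * (N : ℝ) ^ (4 * ws.length) *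
            (B * Q) ^ (2 * ws.length) := by
          gcongr
          have : (0 : ℝ) ≤ m := Nat.cast_nonneg m
          linarith
  · rw [hKFF', hKF', ← mul_sub,
      ← itI_sub (cw ws) (show 1 ≤ N by omega) hs1 hs2 _ le_rfl 0, norm_mul]
    have hm1 : 2 * ws.length - 1 = m := by omega
    rw [hm1]
    have hsep : Sep (2 * ws.length)
        (fun ψ => WkF (2 * ws.length) N χ ψ * YP ls N ψ -
          Wk (2 * ws.length) N χ ψ * YP ls N ψ) := by
      have h1 := hs1.add ((Sep.const (n := 2 * ws.length) (-1)).mul hs2)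
      have e : (fun ψ => WkF (2 * ws.length) N χ ψ * YP ls N ψ -
          Wk (2 * ws.length) N χ ψ * YP ls N ψ) =
          fun ψ => WkF (2 * ws.length) N χ ψ * YP ls N ψ +
            -1 * (Wk (2 * ws.length) N χ ψ * YP ls N ψ) := by
        funext ψ
        ring
      rw [e]
      exact h1
    have h1 : ‖itI (cw ws) N (2 * ws.length)
        (fun ψ => WkF (2 * ws.length) N χ ψ * YP ls N ψ -
          Wk (2 * ws.length) N χ ψ * YP ls N ψ) 0‖ ≤
        C * (((m + 1) * (2 * B) ^ m * B') * Q ^ (2 * ws.length)) := by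
      refine hI N (by omega) _ _ hsep (fun ψ hψ => ?_) 0 h0
      have hk := kh_bd ψ hψ
      rw [← sub_mul, norm_mul]
      refine mul_le_mul ?_ (hY ψ hψ) (norm_nonneg _) (by positivity)
      rw [WkF, Wk]
      have := prod_diff (2 * B) B' (by linarith) hB'
        (fun j => kF N (ψ j) (ψ ((j + 1) % (2 * ws.length))) χ)
        (fun j => kh N (ψ j) (ψ ((j + 1) % (2 * ws.length))) χ) m
        (fun j hj => (hk j (by omega)).1) (fun j hj => (hk j (by omega)).2.1)
        (fun j hj => (hk j (by omega)).2.2)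
      rw [← hm] at this
      exact this
    calc ‖((N : ℂ) / (2 * π)) ^ (2 * ws.length)‖ * ‖itI (cw ws) N (2 * ws.length)
            (fun ψ => WkF (2 * ws.length) N χ ψ * YP ls N ψ -
              Wk (2 * ws.length) N χ ψ * YP ls N ψ) 0‖ ≤
          (N : ℝ) ^ (4 * ws.length) *
            (C * (((m + 1) * (2 * B) ^ m * B') * Q ^ (2 * ws.length))) := by gcongr
      _ = C * (m + 1) * 2 ^ m * (N : ℝ) ^ (4 * ws.length) *
            (B ^ m * B' * Q ^ (2 * ws.length)) := by
          rw [mul_pow]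
          ring
      _ ≤ C * (m + 1) * 2 ^ (2 * ws.length) * (N : ℝ) ^ (4 * ws.length) *
            (B ^ m * B' * Q ^ (2 * ws.length)) := by
          have h2 : (2 : ℝ) ^ m ≤ 2 ^ (2 * ws.length) :=
            pow_le_pow_right₀ one_le_two (by omega)
          gcongr

end Pool.Agent.Y48.DR
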